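import Mathlib
import Pool.Agent.H79.UKP

set_option autoImplicit false

open Pool.Agent.H79 Pool.Agent.H79.UKDefs2 MvPolynomial in
theorem Pool.Agent.Results.MP_49092c_al.Product.result (K : Type) [Field K]
    (I : Ideal (MvPolynomial (Fin 4) K)) (hI : I = Ideal.span {X 0 ^ 2, X 1 ^ 2})
    (I₁ I₂ : Ideal (MvPolynomial (Fin 4) K ⧸ I))
    (h₁ : I₁ = Ideal.span {Ideal.Quotient.mk I (X 2), Ideal.Quotient.mk I (X 3)})
    (h₂ : I₂ = Ideal.span {Ideal.Quotient.mk I (X 2 + X 0), Ideal.Quotient.mk I (X 3 + X 1)}) :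
    UnivKoszul I ∧ I₁ * I₂ ≠ ⊥ ∧ ¬ HasLinRes I 2 (I₁ * I₂) := by
  subst hI h₁ h₂
  have h := UKP.prod_eq K
  unfold UKP.IR at h
  rw [h]
  exact ⟨UKP.uk K, UKP.prod_ne K, UKP.not_lin K⟩
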